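import Pool.Agent.H88.MCR.Stmts3

/-!
Row LO8 of the board mcr (after the row LOC of helper34).
-/

set_option autoImplicit false

namespace Pool.MCR

private theorem lo8_lt {L : Type} [LinearOrder L] (a b : L) (α β : ℤ) :
    lp a α < lp b β ↔ a < b ∨ (a = b ∧ α < β) := Prod.Lex.toLex_lt_toLex

theorem lo8_thm : LO8_S := by
  intro L _ w c d γ δ hc hd hcd
  rcases lt_or_gt_of_ne hc with h1 | h1 <;> rcases lt_or_gt_of_ne hd with h2 | h2 <;>
    rcases lt_or_gt_of_ne hcd with h3 | h3 <;>
  · simp only [Inter, Btw, Out, lo8_lt, h1, h2, h3, not_lt_of_gt h1, not_lt_of_gt h2,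
      not_lt_of_gt h3, h1.ne, h1.ne', h2.ne, h2.ne', h3.ne, h3.ne', lt_irrefl, true_and,
      false_and, and_false, and_true, true_or, false_or, or_false, or_true, not_false_eq_true,
      and_self, or_self, zero_lt_one, not_lt_of_gt (zero_lt_one (α := ℤ))]

end Pool.MCR
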