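import Pool.Agent.H88.MCR.Stmts2

/-!
Row NXK of the board for MP_ffb5eb_co.
-/

namespace Pool.MCR

theorem nxk_lt {L : Type} [LinearOrder L] {a b : L} (k l : ℤ) (h : a < b) : lp a k < lp b l := by
  unfold lp
  rw [Prod.Lex.toLex_lt_toLex]
  exact Or.inl h

theorem nxk_KL {L : Type} [LinearOrder L] {w c d : L} (k l m : ℤ) (h : KL w c d) :
    KL (lp w k) (lp c l) (lp d m) := by
  rcases h with ⟨h1, h2⟩ | ⟨h1, h2, h3⟩ | ⟨h1, h2, h3⟩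
  · exact Or.inl ⟨nxk_lt _ _ h1, nxk_lt _ _ h2⟩
  · exact Or.inr (Or.inl ⟨nxk_lt _ _ h1, nxk_lt _ _ h2, nxk_lt _ _ h3⟩)
  · exact Or.inr (Or.inr ⟨nxk_lt _ _ h1, nxk_lt _ _ h2, nxk_lt _ _ h3⟩)

theorem nxk_thm : NXK_S := by
  intro L _ n D D' u v _ _ hv huv hpos hD' hF
  obtain ⟨h1, h2⟩ := hF
  obtain ⟨h3, k, h4⟩ := hD' v hv huv.symm
  refine ⟨h3.trans h1, ?_⟩
  intro y hy hyu hyv hS
  obtain ⟨h5, l, h6⟩ := hD' y hy hyu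
  rw [hpos, h4, h6]
  exact nxk_KL _ _ _ (h2 y hy hyu hyv (h5.symm.trans hS))

end Pool.MCR
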